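import Mathlib
import Pool.Agent.V11241.RotD

namespace Pool.Agent.Results.MP_9e8ffd_lc.NotBorel

open Set Filter Topology
open Pool.Agent.H534R3.NonBorel (br br_eq_iff length_br br_prefix)
open Pool.Agent.V11241.Rot

/-- The set of integer sequences `(n_k)` such that `z ^ n_k → 1` for some `z` on the unit circle
which is not a root of unity. -/
def S : Set (ℕ → ℤ) :=
  {n | ∃ z : Circle, (∀ m : ℕ, 0 < m → z ^ m ≠ 1) ∧ Tendsto (fun k => z ^ (n k)) atTop (𝓝 1)}

/-- Membership in `S` through the additive circle. -/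
theorem mem_S_iff (n : ℕ → ℤ) : n ∈ S ↔ ∃ t : UA, (∀ m : ℕ, 0 < m → m • t ≠ 0) ∧
    Tendsto (fun k => n k • t) atTop (𝓝 0) := by
  let h : UA ≃ₜ Circle := AddCircle.homeomorphCircle one_ne_zero
  have hh : ∀ t, h t = AddCircle.toCircle t := AddCircle.homeomorphCircle_apply one_ne_zero
  have h0 : h 0 = 1 := by rw [hh, AddCircle.toCircle_zero]
  have key : ∀ t : UA, ((∀ m : ℕ, 0 < m → (h t) ^ m ≠ 1) ∧
      Tendsto (fun k => (h t) ^ (n k)) atTop (𝓝 1)) ↔ ((∀ m : ℕ, 0 < m → m • t ≠ 0) ∧
      Tendsto (fun k => n k • t) atTop (𝓝 0)) := by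
    intro t
    refine and_congr (forall_congr' fun m => forall_congr' fun _ => not_congr ?_) ?_
    · rw [hh, ← AddCircle.toCircle_nsmul, ← hh, ← h0, h.injective.eq_iff]
    · rw [h.isInducing.tendsto_nhds_iff, h0]
      have : (fun k => h t ^ n k) = h ∘ (fun k => n k • t) := by
        funext k
        rw [Function.comp_apply, hh, hh, AddCircle.toCircle_zsmul]
      rw [this]
  constructor
  · rintro ⟨z, hz⟩
    refine ⟨h.symm z, (key _).1 ?_⟩
    rw [h.apply_symm_apply]; exact hz
  · rintro ⟨t, ht⟩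
    exact ⟨h t, (key t).2 ht⟩

/-- All prefixes of `s` are in the tree. -/
def TT (t : List ℕ → Bool) (s : List ℕ) : Bool := s.inits.all t

theorem TT_iff (t : List ℕ → Bool) (s : List ℕ) : TT t s = true ↔ ∀ u, u <+: s → t u = true := by
  simp [TT, List.all_eq_true, List.mem_inits]

/-- The tests. -/
def test (t : List ℕ → Bool) : Fin 3 × (ℕ × ℕ) → ℤ
  | (0, p) => tA p.1 p.2
  | (1, p) => tB p.1 p.2
  | (2, p) => tC (TT t) p.1 p.2

/-- an enumeration of the tests -/
noncomputable def en : ℕ ≃ Fin 3 × (ℕ × ℕ) := (nonempty_equiv_of_countable).some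

noncomputable def Phi (t : List ℕ → Bool) : ℕ → ℤ := fun k => test t (en k)

theorem Phi_tendsto (t : List ℕ → Bool) (u : UA) :
    Tendsto (fun k => Phi t k • u) atTop (𝓝 0) ↔
      Tendsto (fun p : ℕ × ℕ => tA p.1 p.2 • u) cofinite (𝓝 0) ∧
      Tendsto (fun p : ℕ × ℕ => tB p.1 p.2 • u) cofinite (𝓝 0) ∧
      Tendsto (fun p : ℕ × ℕ => tC (TT t) p.1 p.2 • u) cofinite (𝓝 0) := by
  have h1 : Tendsto (fun k => Phi t k • u) atTop (𝓝 0) ↔
      Tendsto (fun i => test t i • u) cofinite (𝓝 0) := by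
    rw [← Nat.cofinite_eq_atTop]
    constructor
    · intro h
      have := h.comp en.symm.injective.tendsto_cofinite
      refine this.congr fun i => ?_
      simp [Phi]
    · intro h
      exact h.comp en.injective.tendsto_cofinite
  rw [h1]
  have hinj : ∀ κ : Fin 3, Function.Injective (fun p : ℕ × ℕ => (κ, p)) := fun κ a b h => by
    simpa using h
  constructor
  · intro h
    exact ⟨h.comp (hinj 0).tendsto_cofinite, h.comp (hinj 1).tendsto_cofinite,
      h.comp (hinj 2).tendsto_cofinite⟩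
  · rintro ⟨h0, h1, h2⟩
    intro W hW
    have g0 := h0 hW
    have g1 := h1 hW
    have g2 := h2 hW
    rw [mem_map, mem_cofinite] at g0 g1 g2 ⊢
    refine (((g0.image (fun p => ((0 : Fin 3), p))).union (g1.image (fun p => ((1 : Fin 3), p)))).union
      (g2.image (fun p => ((2 : Fin 3), p)))).subset ?_
    rintro ⟨κ, p⟩ hp
    fin_cases κ
    · exact Or.inl (Or.inl ⟨p, hp, rfl⟩)
    · exact Or.inl (Or.inr ⟨p, hp, rfl⟩)
    · exact Or.inr ⟨p, hp, rfl⟩

/-- The reduction. -/
theorem Phi_mem_iff (t : List ℕ → Bool) :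
    Phi t ∈ S ↔ ∃ f : ℕ → ℕ, ∀ n, t (br f n) = true := by
  rw [mem_S_iff]
  constructor
  · rintro ⟨u, hu, hlim⟩
    rw [Phi_tendsto] at hlim
    obtain ⟨f, hf⟩ := backward u (TT t) hu hlim.1 hlim.2.1 hlim.2.2
    refine ⟨f, fun n => ?_⟩
    obtain ⟨s, hs, hpre⟩ := hf n
    exact (TT_iff t s).1 hs _ hpre
  · rintro ⟨f, hf⟩
    refine ⟨((X f 0 : ℝ) : UA), not_torsion f, ?_⟩
    rw [Phi_tendsto]
    refine ⟨tendsto_A f, tendsto_B f, tendsto_C f _ fun n => ?_⟩
    rw [TT_iff]
    intro v hv
    have h1 : v = br f v.length := by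
      have h2 : br f v.length <+: br f n := br_prefix f (by
        have := hv.length_le
        rwa [length_br] at this)
      exact List.IsPrefix.eq_of_length (List.prefix_of_prefix_length_le hv h2 (by simp)) (by simp)
    rw [h1]; exact hf _

theorem measurable_TT (s : List ℕ) : Measurable (fun t : List ℕ → Bool => TT t s) := by
  refine measurable_to_bool ?_
  have : (fun t : List ℕ → Bool => TT t s) ⁻¹' {true} =
      ⋂ u : List ℕ, ⋂ _ : u <+: s, {t | t u = true} := by
    ext t
    simp only [mem_preimage, mem_singleton_iff, TT_iff, mem_iInter, mem_ofPred_eq]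
  rw [this]
  refine MeasurableSet.iInter fun u => MeasurableSet.iInter fun _ => ?_
  exact Pool.Agent.H534R3.NonBorel.mset u true

theorem measurable_Phi : Measurable Phi := by
  refine measurable_pi_lambda _ fun k => ?_
  have : ∀ i : Fin 3 × (ℕ × ℕ), Measurable (fun t => test t i) := by
    rintro ⟨κ, p⟩
    fin_cases κ
    · exact measurable_const
    · exact measurable_const
    · have h1 : (fun t => test t ((2 : Fin 3), p)) =
          (fun b : Bool => if p.2 ≤ 2 ^ (L p.1 + 4) ∧ b = false then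
            (p.2 : ℤ) * 2 ^ (A (p.1 + 1) - hh p.1) else 0) ∘ (fun t => TT t (nd p.1).1) := rfl
      show Measurable (fun t => test t ((2 : Fin 3), p))
      rw [h1]
      exact (measurable_of_finite _).comp (measurable_TT _)
  exact this (en k)

/-- `S` is not a Borel subset of `ℤ^ℕ` (product of the discrete topologies). -/
theorem result : ¬ @MeasurableSet (ℕ → ℤ) (borel (ℕ → ℤ)) S := by
  intro h
  have h1 : MeasurableSet S := by
    rw [← BorelSpace.measurable_eq (α := ℕ → ℤ)] at h
    exact h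
  apply Pool.Agent.H534R3.NonBorel.illFounded_not_measurable
  have h2 : {t : List ℕ → Bool | ∃ f : ℕ → ℕ, ∀ n, t (br f n) = true} = Phi ⁻¹' S := by
    ext t
    exact (Phi_mem_iff t).symm
  rw [h2]
  exact measurable_Phi h1

end Pool.Agent.Results.MP_9e8ffd_lc.NotBorel
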